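import Pool.Agent.W_b5ab1bf_h80.XSub

set_option autoImplicit false

/-!
# The group ring of A wr Z: no singular continuous part

`A` a torsion-free abelian group, `G` a torsion-free group, `T` a self-adjoint element of `ℝ[A ≀ G]` whose
support lies over a cyclic subgroup of `G` (for `G = ℤ`: every self-adjoint element of `ℝ[A ≀ ℤ]`): the
spectral measure of `T` is absolutely continuous outside of a finite set.
-/

namespace Pool.Agent.Results.MP_b5ab1b_al.AllElements

open MeasureTheory Pool.Agent.Wb5ab1b Pool.Agent.Wb5ab1bf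

theorem result :
    (∀ (A : Type) [AddCommGroup A] [IsAddTorsionFree A],
      (∀ (g : Wr A) (n : ℕ), n ≠ 0 → g ^ n = 1 → g = 1) ∧
      ∀ T : MonoidAlgebra ℝ (Wr A), (∀ g, T.coeff g⁻¹ = T.coeff g) →
        ∃ μ : Measure ℝ, IsSpectralMeasure T μ ∧
          (∀ ν : Measure ℝ, IsSpectralMeasure T ν → ν = μ) ∧
          ∃ F : Finset ℝ, (μ.restrict (F : Set ℝ)ᶜ).AbsolutelyContinuous volume) ∧
    (∀ (A G : Type) [AddCommGroup A] [IsAddTorsionFree A] [Group G],
      (∀ (g : G) (n : ℕ), n ≠ 0 → g ^ n = 1 → g = 1) →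
      (∀ (g : WrG A G) (n : ℕ), n ≠ 0 → g ^ n = 1 → g = 1) ∧
      ∀ T : MonoidAlgebra ℝ (WrG A G), (∀ g, T.coeff g⁻¹ = T.coeff g) →
        (∃ c : G, ∀ g, T.coeff g ≠ 0 → g.right ∈ Subgroup.zpowers c) →
        ∃ μ : Measure ℝ, IsSpectralMeasure T μ ∧
          (∀ ν : Measure ℝ, IsSpectralMeasure T ν → ν = μ) ∧
          ∃ F : Finset ℝ, (μ.restrict (F : Set ℝ)ᶜ).AbsolutelyContinuous volume) := by
  refine ⟨?_, ?_⟩
  · intro A _ _
    exact ⟨torsionFree A, fun T hT => final_all A T hT⟩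
  · intro A G _ _ _ hG
    refine ⟨torsionFreeG A G hG, ?_⟩
    rintro T hT ⟨c, hs⟩
    exact final_G A G hG T hT c hs

end Pool.Agent.Results.MP_b5ab1b_al.AllElements
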