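import Pool.Agent.W_MP_b5ab1b_al_h72.Abelian
import Pool.Agent.W_MP_b5ab1b_al_h72.Wreath

/-! Singular parts of spectral measures of `S + ∑ c(g) g f g⁻¹` in real group rings. -/

namespace Pool.Agent.Results.MP_b5ab1b_al.SingularPart

open MeasureTheory Pool.W_MP_b5ab1b_al

universe u

/-- The singular part of the spectral measure of `S + ∑ c(g) g f g⁻¹` has at most the mass of the
singular part of the spectral measure of `f`, whenever `G` and `L` admit a compatible section; the
spectral measure is absolutely continuous if `L` is torsion-free abelian and `f` is not scalar;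
wreath products provide compatible sections. -/
theorem result :
    (∀ (Γ : Type u) [Group Γ] (G L : Subgroup Γ) (Sec : Set Γ), CompatibleSection G L Sec →
      ∀ (S f : MonoidAlgebra ℝ Γ) (c : Γ →₀ ℝ),
        (∀ g, S.coeff g⁻¹ = S.coeff g) → (∀ g, f.coeff g⁻¹ = f.coeff g) →
        (∀ g ∈ S.coeff.support, g ∈ G) → (∀ g ∈ f.coeff.support, g ∈ L) →
        (∀ g ∈ c.support, g ∈ G) → (∀ g, 0 ≤ c g) → c ≠ 0 →
        ∀ μ : Measure ℝ, IsSpectralMeasure (elt S f c) μ →
          (∀ ν : Measure ℝ, IsSpectralMeasure f ν →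
            (μ.singularPart volume) Set.univ ≤ (ν.singularPart volume) Set.univ) ∧
          ((∀ a ∈ L, ∀ b ∈ L, a * b = b * a) → (∀ a ∈ L, a ≠ 1 → ¬ IsOfFinOrder a) →
            (∃ g, g ≠ 1 ∧ f.coeff g ≠ 0) → μ ≪ volume)) ∧
    (∀ (X D G : Type u) [Group D] [Group G] [MulAction G X] (o : X),
      CompatibleSection (offOrbit D G o) (lamp D G o)
        {γ : (X → D) ⋊[mulAutArrow] G | γ.left (γ.right • o) = 1} ∧
      ((∀ d : D, d ≠ 1 → ¬ IsOfFinOrder d) → (∀ g : G, g ≠ 1 → ¬ IsOfFinOrder g) →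
        ∀ γ : (X → D) ⋊[mulAutArrow] G, γ ≠ 1 → ¬ IsOfFinOrder γ)) := by
  refine ⟨?_, ?_⟩
  · intro Γ _ G L Sec h S f c hS hf hSG hfL hcG hc hc0 μ hμ
    refine ⟨fun ν hν => main_theorem h hS hf hSG hfL hcG hc hc0 hμ hν, ?_⟩
    intro hcomm htf hns
    obtain ⟨g0, hg1, hg0⟩ := hns
    obtain ⟨ν, hν, hνf⟩ := abelian_spectral L hcomm (by
      intro a ha n hn hpow
      by_contra hne
      exact htf a ha hne (isOfFinOrder_iff_pow_eq_one.2 ⟨n, Nat.pos_of_ne_zero hn, hpow⟩))
      hf hfL hg1 hg0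
    have h1 := main_theorem h hS hf hSG hfL hcG hc hc0 hμ hνf
    have := hμ.isProbabilityMeasure
    have := hνf.isProbabilityMeasure
    rw [(Measure.singularPart_eq_zero ν volume).2 hν] at h1
    have h2 : (μ.singularPart volume) Set.univ = 0 := by
      simpa using h1
    rw [Measure.measure_univ_eq_zero] at h2
    exact (Measure.singularPart_eq_zero μ volume).1 h2
  · intro X D G _ _ _ o
    exact ⟨wreath_compatible o, wreath_torsionFree⟩

end Pool.Agent.Results.MP_b5ab1b_al.SingularPart
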